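import Pool.Agent.Q33.SB.Stm

/-!
Project SB, job NON: norms from `ℚ_p ⊗ ℚ(ζ_{p^m})` which are units are `≡ 1 mod p^m`.
-/

set_option autoImplicit false

open scoped TensorProduct NumberField

namespace Pool.Agent.Q47.SB

open Pool.Agent.Q33.SB

section nrl

variable {k R L : Type} [Field k] [CommRing R] [Algebra k R] [Field L] [Algebra k L]

theorem sg_tmul (σ : L ≃ₐ[k] L) (r : R) (l : L) : sg R σ (r ⊗ₜ l) = r ⊗ₜ σ l := by
  unfold sg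
  rw [Algebra.TensorProduct.congr_apply, Algebra.TensorProduct.map_tmul]
  rfl

theorem sg_pow_tmul (σ : L ≃ₐ[k] L) (j : ℕ) (r : R) (l : L) :
    ((sg R σ) ^ j) (r ⊗ₜ l) = r ⊗ₜ (σ ^ j) l := by
  induction j with
  | zero => simp
  | succ j ih =>
    rw [pow_succ', pow_succ', AlgEquiv.mul_apply, ih, sg_tmul, AlgEquiv.mul_apply]

open Finset in
/-- The norm of `1 ⊗ x`. -/
theorem nr_one_tmul {σ : L ≃ₐ[k] L} {n : ℕ} (hgen : IsGen σ n) (x : L) :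
    nr R σ n ((1 : R) ⊗ₜ[k] x) = (1 : R) ⊗ₜ[k] (algebraMap k L (Algebra.norm k x)) := by
  classical
  obtain ⟨hn, ho, hpos⟩ := hgen
  have : FiniteDimensional k L := FiniteDimensional.of_finrank_pos (by omega)
  have hcard : Fintype.card (L ≃ₐ[k] L) = n := by
    apply le_antisymm
    · rw [← hn]
      exact AlgEquiv.card_le
    · rw [← ho]
      exact orderOf_le_card_univ
  have : IsGalois k L := IsGalois.of_card_aut_eq_finrank k L (by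
    rw [Nat.card_eq_fintype_card, hcard, hn])
  have hinj : Set.InjOn (fun j => σ ^ j) (range n : Set ℕ) := by
    intro i hi j hj hij
    have h := pow_injOn_Iio_orderOf (x := σ)
    rw [ho] at h
    exact h (by simpa using hi) (by simpa using hj) hij
  have himg : (range n).image (fun j => σ ^ j) = univ := by
    apply Finset.eq_univ_of_card
    rw [Finset.card_image_of_injOn hinj, card_range, hcard]
  unfold nr
  simp only [sg_pow_tmul]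
  have h1 : ∀ s : Finset ℕ, ∏ i ∈ s, ((1 : R) ⊗ₜ[k] ((σ ^ i) x)) = (1 : R) ⊗ₜ[k] ∏ i ∈ s, (σ ^ i) x := by
    intro s
    induction s using Finset.induction_on with
    | empty => simp [Algebra.TensorProduct.one_def]
    | insert a s ha ih =>
      rw [prod_insert ha, prod_insert ha, ih, Algebra.TensorProduct.tmul_mul_tmul, one_mul]
  rw [h1, Algebra.norm_eq_prod_automorphisms, ← himg, prod_image hinj]

end nrl

section cong

variable {p : ℕ} [Fact p.Prime] {L : Type} [Field L] [Algebra ℚ L]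

/-- The conjugation as a homomorphism over `ℤ_p`. -/
noncomputable def ph (σ : L ≃ₐ[ℚ] L) (i : ℕ) : (ℚ_[p] ⊗[ℚ] L) →ₐ[ℤ_[p]] (ℚ_[p] ⊗[ℚ] L) :=
  (((sg ℚ_[p] σ) ^ i).toAlgHom).restrictScalars ℤ_[p]

theorem ph_apply (σ : L ≃ₐ[ℚ] L) (i : ℕ) (z : ℚ_[p] ⊗[ℚ] L) :
    ph σ i z = ((sg ℚ_[p] σ) ^ i) z := rfl

theorem nr_eq (σ : L ≃ₐ[ℚ] L) (n : ℕ) (z : ℚ_[p] ⊗[ℚ] L) :
    nr ℚ_[p] σ n z = ∏ i ∈ Finset.range n, ph σ i z := rfl

/-- The product of the conjugates of an integral element is integral. -/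
theorem nr_integral (σ : L ≃ₐ[ℚ] L) (n : ℕ) {y : ℚ_[p] ⊗[ℚ] L} (hy : IsIntegral ℤ_[p] y) :
    IsIntegral ℤ_[p] (nr ℚ_[p] σ n y) := by
  rw [nr_eq]
  exact IsIntegral.prod _ fun i _ => hy.map (ph σ i)

theorem nr_cong (σ : L ≃ₐ[ℚ] L) (n : ℕ) (t : ℤ_[p]) {y e : ℚ_[p] ⊗[ℚ] L}
    (hy : IsIntegral ℤ_[p] y) (he : IsIntegral ℤ_[p] e) :
    ∃ e', IsIntegral ℤ_[p] e' ∧ nr ℚ_[p] σ n (y + t • e) = nr ℚ_[p] σ n y + t • e' := by
  induction n with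
  | zero => exact ⟨0, isIntegral_zero, by simp [nr]⟩
  | succ n ih =>
    obtain ⟨e', he', h⟩ := ih
    have hs : ∀ z : ℚ_[p] ⊗[ℚ] L, nr ℚ_[p] σ (n + 1) z = nr ℚ_[p] σ n z * ph σ n z := fun z => by
      rw [nr_eq, nr_eq, Finset.prod_range_succ]
    refine ⟨e' * ph σ n y + nr ℚ_[p] σ n y * ph σ n e + t • (e' * ph σ n e), ?_, ?_⟩
    · exact ((he'.mul (hy.map (ph σ n))).add ((nr_integral σ n hy).mul (he.map (ph σ n)))).add
        ((he'.mul (he.map (ph σ n))).smul t)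
    · rw [hs, hs, h, map_add, map_smul]
      simp only [Algebra.smul_def]
      ring

theorem nr_smul (σ : L ≃ₐ[ℚ] L) (n : ℕ) (t : ℤ_[p]) (y : ℚ_[p] ⊗[ℚ] L) :
    nr ℚ_[p] σ n (t • y) = t ^ n • nr ℚ_[p] σ n y := by
  rw [nr_eq, nr_eq]
  simp only [map_smul]
  rw [Finset.prod_smul, Finset.prod_const, Finset.card_range]

/-- The integral elements of `ℚ_p`. -/
theorem norm_le_one_of_integral {c : ℚ_[p]}
    (h : IsIntegral ℤ_[p] (algebraMap ℚ_[p] (ℚ_[p] ⊗[ℚ] L) c)) : ‖c‖ ≤ 1 := by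
  have h1 : IsIntegral ℤ_[p] c := by
    refine (isIntegral_algebraMap_iff (A := ℚ_[p]) (B := ℚ_[p] ⊗[ℚ] L) ?_).1 h
    exact (algebraMap ℚ_[p] (ℚ_[p] ⊗[ℚ] L)).injective
  obtain ⟨x, hx⟩ := IsIntegrallyClosed.isIntegral_iff.1 h1
  rw [← hx]
  exact x.2

end cong

theorem t_NON : S_NON := by
  intro hNMI p m n _ L _ _ _ σ hp hm hgen b y hb hy
  have hpp : p.Prime := Fact.out
  have hp0 : (p : ℝ) ≠ 0 := by exact_mod_cast hpp.ne_zero
  have hp1 : (1 : ℝ) < p := by exact_mod_cast hpp.one_lt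
  have : NeZero (p ^ m) := ⟨pow_ne_zero _ hpp.ne_zero⟩
  have hζ := IsCyclotomicExtension.zeta_spec (p ^ m) ℚ L
  set ζ := IsCyclotomicExtension.zeta (p ^ m) ℚ L with hζd
  let pb := hζ.powerBasis ℚ
  let B := Algebra.TensorProduct.basis ℚ_[p] pb.basis
  -- the coordinates
  have hyB : y = ∑ i, B.repr y i • ((1 : ℚ_[p]) ⊗ₜ[ℚ] (ζ ^ (i : ℕ))) := by
    conv_lhs => rw [← B.sum_repr y]
    refine Finset.sum_congr rfl fun i _ => ?_
    congr 1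
    rw [Algebra.TensorProduct.basis_apply, PowerBasis.basis_eq_pow, hζ.powerBasis_gen ℚ]
  set c := fun i => B.repr y i with hc
  -- denominators
  obtain ⟨k, hk⟩ : ∃ k : ℕ, ∀ i, ‖(p : ℚ_[p]) ^ k * c i‖ ≤ 1 := by
    obtain ⟨k, hk⟩ := pow_unbounded_of_one_lt (∑ i, ‖c i‖) hp1
    refine ⟨k, fun i => ?_⟩
    have h1 : ‖c i‖ ≤ ∑ i, ‖c i‖ :=
      Finset.single_le_sum (f := fun i => ‖c i‖) (fun i _ => norm_nonneg _) (Finset.mem_univ i)
    rw [norm_mul, norm_pow, Padic.norm_p, inv_pow]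
    have hpk : (0 : ℝ) < (p : ℝ) ^ k := by positivity
    rw [inv_mul_le_iff₀ hpk, mul_one]
    linarith
  set T := n * k + m with hT
  let x : Fin pb.dim → ℤ_[p] := fun i => ⟨(p : ℚ_[p]) ^ k * c i, hk i⟩
  let a : Fin pb.dim → ℕ := fun i => (x i).appr T
  have he : ∀ i, ∃ e : ℤ_[p], x i = (a i : ℤ_[p]) + (p : ℤ_[p]) ^ T * e := by
    intro i
    obtain ⟨e, he⟩ := Ideal.mem_span_singleton.1 (PadicInt.appr_spec T (x i))
    exact ⟨e, by rw [← he]; ring⟩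
  choose e he using he
  let z : Fin pb.dim → (ℚ_[p] ⊗[ℚ] L) := fun i => (1 : ℚ_[p]) ⊗ₜ[ℚ] (ζ ^ (i : ℕ))
  have hzint : ∀ i, IsIntegral ℤ_[p] (z i) := by
    intro i
    refine IsIntegral.of_pow (n := p ^ m) (pow_pos hpp.pos m) ?_
    have : z i ^ p ^ m = 1 := by
      change ((1 : ℚ_[p]) ⊗ₜ[ℚ] (ζ ^ (i : ℕ))) ^ p ^ m = 1
      rw [Algebra.TensorProduct.tmul_pow, one_pow, ← pow_mul, mul_comm, pow_mul, hζ.pow_eq_one,
        one_pow]
      rfl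
    rw [this]
    exact isIntegral_one
  let β : 𝓞 L := ∑ i, (a i : 𝓞 L) * hζ.toInteger ^ (i : ℕ)
  have hβ : (β : L) = ∑ i, (a i : L) * ζ ^ (i : ℕ) := by
    simp only [β, map_sum, map_mul, map_pow, map_natCast]
    rfl
  have hβt : (1 : ℚ_[p]) ⊗ₜ[ℚ] (β : L) = ∑ i, (a i : ℤ_[p]) • z i := by
    rw [hβ, TensorProduct.tmul_sum]
    refine Finset.sum_congr rfl fun i _ => ?_
    rw [Nat.cast_smul_eq_nsmul]
    change _ = a i • ((1 : ℚ_[p]) ⊗ₜ[ℚ] (ζ ^ (i : ℕ)))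
    rw [← TensorProduct.tmul_smul, nsmul_eq_mul]
  set E := ∑ i, e i • z i with hE
  have hEint : IsIntegral ℤ_[p] E := IsIntegral.sum _ fun i _ => (hzint i).smul (e i)
  have hβint : IsIntegral ℤ_[p] ((1 : ℚ_[p]) ⊗ₜ[ℚ] (β : L)) := by
    rw [hβt]
    exact IsIntegral.sum _ fun i _ => (hzint i).smul _
  have hkey : ((p : ℤ_[p]) ^ k) • y = (1 : ℚ_[p]) ⊗ₜ[ℚ] (β : L) + ((p : ℤ_[p]) ^ T) • E := by
    rw [hβt, hE, Finset.smul_sum, ← Finset.sum_add_distrib]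
    conv_lhs => rw [hyB, Finset.smul_sum]
    refine Finset.sum_congr rfl fun i _ => ?_
    rw [smul_smul, ← add_smul, ← he i]
    rw [← algebraMap_smul ℚ_[p] ((p : ℤ_[p]) ^ k), ← algebraMap_smul ℚ_[p] (x i), smul_smul]
    congr 1
  obtain ⟨E', hE', hnr⟩ := nr_cong σ n ((p : ℤ_[p]) ^ T) hβint hEint
  rw [← hkey, nr_smul, hy, nr_one_tmul hgen] at hnr
  set Nz : ℤ := Algebra.norm ℤ β with hNz
  have hN1 : (1 : ℚ_[p]) ⊗ₜ[ℚ] (algebraMap ℚ L (Algebra.norm ℚ (β : L))) =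
      algebraMap ℚ_[p] (ℚ_[p] ⊗[ℚ] L) (Nz : ℚ_[p]) := by
    rw [← Algebra.coe_norm_int β, ← hNz, map_intCast, map_intCast]
    exact map_intCast (Algebra.TensorProduct.includeRight : L →ₐ[ℚ] ℚ_[p] ⊗[ℚ] L) Nz
  rw [hN1] at hnr
  -- the difference
  have hpT : (p : ℚ_[p]) ^ T ≠ 0 := pow_ne_zero _ (by exact_mod_cast hpp.ne_zero)
  have hE2 : E' = algebraMap ℚ_[p] (ℚ_[p] ⊗[ℚ] L)
      (((p : ℚ_[p]) ^ (k * n) * b - Nz) / (p : ℚ_[p]) ^ T) := by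
    have h1 : (algebraMap ℚ_[p] (ℚ_[p] ⊗[ℚ] L) ((p : ℚ_[p]) ^ T)) * E' =
        algebraMap ℚ_[p] (ℚ_[p] ⊗[ℚ] L) ((p : ℚ_[p]) ^ (k * n) * b - Nz) := by
      have e1 : ((p : ℤ_[p]) ^ T) • E' =
          (algebraMap ℚ_[p] (ℚ_[p] ⊗[ℚ] L) ((p : ℚ_[p]) ^ T)) * E' := by
        rw [← algebraMap_smul ℚ_[p] ((p : ℤ_[p]) ^ T), map_pow, map_natCast, Algebra.smul_def]
      have e2 : (((p : ℤ_[p]) ^ k) ^ n) • algebraMap ℚ_[p] (ℚ_[p] ⊗[ℚ] L) b =
          algebraMap ℚ_[p] (ℚ_[p] ⊗[ℚ] L) ((p : ℚ_[p]) ^ (k * n) * b) := by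
        rw [← algebraMap_smul ℚ_[p] (((p : ℤ_[p]) ^ k) ^ n), map_pow, map_pow, map_natCast,
          Algebra.smul_def, ← map_mul, pow_mul]
      rw [e1, e2] at hnr
      rw [map_sub, hnr]
      ring
    rw [div_eq_mul_inv, mul_comm _ ((p : ℚ_[p]) ^ T)⁻¹, map_mul, ← h1, ← mul_assoc, ← map_mul,
      inv_mul_cancel₀ hpT, map_one, one_mul]
  rw [hE2] at hE'
  have h1 := norm_le_one_of_integral hE'
  have h2 : ‖(p : ℚ_[p]) ^ (k * n) * b - Nz‖ ≤ (p : ℝ) ^ (-(T : ℤ)) := by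
    rw [norm_div, norm_pow, Padic.norm_p, inv_pow, div_inv_eq_mul] at h1
    have hpT' : (0 : ℝ) < (p : ℝ) ^ T := by positivity
    rw [zpow_neg, zpow_natCast, ← one_div, le_div_iff₀ hpT']
    exact h1
  -- divisibility
  have h3 : ‖(Nz : ℚ_[p])‖ ≤ (p : ℝ) ^ (-((k * n : ℕ) : ℤ)) := by
    have e1 : (Nz : ℚ_[p]) = (p : ℚ_[p]) ^ (k * n) * b - ((p : ℚ_[p]) ^ (k * n) * b - Nz) := by ring
    rw [e1, sub_eq_add_neg]
    refine (IsUltrametricDist.norm_add_le_max _ _).trans (max_le ?_ ?_)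
    · rw [norm_mul, hb, mul_one, norm_pow, Padic.norm_p, zpow_neg, zpow_natCast, inv_pow]
    · rw [norm_neg]
      refine h2.trans ?_
      refine zpow_le_zpow_right₀ hp1.le ?_
      have : k * n ≤ T := by rw [hT, mul_comm]; omega
      exact_mod_cast neg_le_neg (by exact_mod_cast this)
  obtain ⟨a', ha'⟩ := (Padic.norm_int_le_pow_iff_dvd Nz (k * n)).1 h3
  have h4 : ‖b - a'‖ ≤ (p : ℝ) ^ (-(m : ℤ)) := by
    have e1 : (p : ℚ_[p]) ^ (k * n) * b - Nz = (p : ℚ_[p]) ^ (k * n) * (b - a') := by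
      rw [ha']; push_cast; ring
    rw [e1, norm_mul, norm_pow, Padic.norm_p, inv_pow] at h2
    have hpk : (0 : ℝ) < (p : ℝ) ^ (k * n) := by positivity
    rw [inv_mul_le_iff₀ hpk] at h2
    refine h2.trans (le_of_eq ?_)
    rw [← zpow_natCast, ← zpow_add₀ hp0, hT]
    congr 1
    push_cast
    ring
  have hmz : (p : ℝ) ^ (-(m : ℤ)) < 1 := by
    rw [zpow_neg, zpow_natCast]
    exact inv_lt_one_of_one_lt₀ (one_lt_pow₀ hp1 (by omega))
  have h5 : ¬ (p : ℤ) ∣ a' := by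
    intro h
    have h6 := (Padic.norm_intCast_lt_one_iff (p := p)).2 h
    have e1 : b = (b - a') + (a' : ℚ_[p]) := by ring
    have h7 : ‖b‖ < 1 := by
      rw [e1]
      exact (IsUltrametricDist.norm_add_le_max _ _).trans_lt (max_lt (h4.trans_lt hmz) h6)
    rw [hb] at h7
    exact lt_irrefl _ h7
  have h8 := hNMI p m L hp hm β a' (k * n) ha' h5
  have h9 := (Padic.norm_int_le_pow_iff_dvd (a' - 1) m).2 h8
  have e1 : b - 1 = (b - a') + ((a' - 1 : ℤ) : ℚ_[p]) := by push_cast; ring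
  rw [e1]
  exact (IsUltrametricDist.norm_add_le_max _ _).trans (max_le h4 h9)

end Pool.Agent.Q47.SB
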