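import Pool.Agent.Q47.SB.Smo
import Pool.Agent.Helper165.P1.Fields

/-!
Project SB, job PUI: the tangential section.
-/

set_option autoImplicit false

namespace Pool.Agent.Q47.SB

open Pool.Agent.Q33.SB Pool.Agent.Helper165.P1

/-- The algebraic numbers. -/
abbrev E : Type := AlgebraicClosure ℚ

/-- The field of Puiseux series. -/
abbrev O : Type := Pui E

theorem ext_O {x y : O} (h : ∀ q : ℚ, (x : HQ E).coeff q = (y : HQ E).coeff q) : x = y :=
  Subtype.ext (HahnSeries.ext (funext h))

/-- The constants. -/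
noncomputable def cst : E →+* O := (eP 1 one_pos).comp HahnSeries.C

theorem cst_coeff (a : E) (q : ℚ) : ((cst a : O) : HQ E).coeff q = if q = 0 then a else 0 := by
  change (eHom 1 one_pos (HahnSeries.C a)).coeff q = _
  by_cases h : ∃ n : ℤ, (n : ℚ) / (1 : ℕ) = q
  · obtain ⟨n, rfl⟩ := h
    rw [eHom_coeff, HahnSeries.C_apply, HahnSeries.coeff_single]
    simp
  · push Not at h
    rw [eHom_coeff_of_ne 1 one_pos _ q h, if_neg]
    rintro rfl
    exact h 0 (by simp)

/-- The action of the Galois group. -/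
noncomputable def act : GalQ →* (O ≃+* O) where
  toFun σ := twP (σ : E ≃+* E) 1
  map_one' := by
    refine RingEquiv.ext fun x => ext_O fun q => ?_
    rw [twP_coeff]
    rw [AddChar.one_apply, one_mul]
    rfl
  map_mul' σ τ := by
    refine RingEquiv.ext fun x => ext_O fun q => ?_
    change _ = ((twP (σ : E ≃+* E) 1 (twP (τ : E ≃+* E) 1 x) : O) : HQ E).coeff q
    simp only [twP_coeff, AddChar.one_apply, one_mul]
    rfl

theorem act_coeff (σ : GalQ) (x : O) (q : ℚ) :
    ((act σ x : O) : HQ E).coeff q = σ ((x : HQ E).coeff q) := by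
  change ((twP (σ : E ≃+* E) 1 x : O) : HQ E).coeff q = _
  rw [twP_coeff, AddChar.one_apply, one_mul]
  rfl

theorem act_cst (σ : GalQ) (a : E) : act σ (cst a) = cst (σ a) := by
  refine ext_O fun q => ?_
  rw [act_coeff, cst_coeff, cst_coeff]
  split_ifs
  · rfl
  · exact map_zero σ

/-- The power `t ^ n` of the variable. -/
noncomputable def tp (n : ℤ) : O := eP 1 one_pos (HahnSeries.single n 1)

theorem tp_coeff (n : ℤ) (q : ℚ) : ((tp n : O) : HQ E).coeff q = if q = n then 1 else 0 := by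
  change (eHom 1 one_pos (HahnSeries.single n 1)).coeff q = _
  by_cases h : ∃ m : ℤ, (m : ℚ) / (1 : ℕ) = q
  · obtain ⟨m, rfl⟩ := h
    rw [eHom_coeff, HahnSeries.coeff_single]
    simp
  · push Not at h
    rw [eHom_coeff_of_ne 1 one_pos _ q h, if_neg]
    rintro rfl
    exact h n (by simp)

theorem tp_add (m n : ℤ) : tp (m + n) = tp m * tp n := by
  unfold tp
  rw [← map_mul, HahnSeries.single_mul_single, one_mul]

theorem tp_zero : tp 0 = 1 := by
  unfold tp
  exact map_one _

/-- The unit `t`. -/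
noncomputable def tU : Oˣ where
  val := tp 1
  inv := tp (-1)
  val_inv := by rw [← tp_add]; exact tp_zero
  inv_val := by rw [← tp_add]; exact tp_zero

theorem tU_zpow (n : ℤ) : ((tU ^ n : Oˣ) : O) = tp n := by
  induction n using Int.induction_on with
  | zero => rw [zpow_zero, tp_zero]; rfl
  | succ n ih => rw [zpow_add_one, Units.val_mul, ih, tp_add]; rfl
  | pred n ih =>
    rw [zpow_sub_one, Units.val_mul, ih, sub_eq_add_neg, tp_add]; rfl

theorem tU_pow (n : ℕ) : (tU : O) ^ n = tp n := by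
  rw [← tU_zpow, zpow_natCast, Units.val_pow_eq_pow_val]

theorem act_tp (σ : GalQ) (n : ℤ) : act σ (tp n) = tp n := by
  refine ext_O fun q => ?_
  rw [act_coeff, tp_coeff]
  split_ifs
  · exact map_one σ
  · exact map_zero σ

theorem exists_w : ∃ w : O, w ^ 2 = (tU : O) ^ 4 + 1 ∧ ∀ σ, act σ w = w := by
  obtain ⟨w, hw⟩ := IsAlgClosed.exists_pow_nat_eq ((tU : O) ^ 4 + 1) (n := 2) two_pos
  refine ⟨w, hw, fun σ => ?_⟩
  have hwH : (w : HQ E) * (w : HQ E) = ((tp 4 : O) : HQ E) + 1 := by
    have := congrArg (Subtype.val) hw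
    rw [tU_pow] at this
    rw [← pow_two]
    exact this
  have hr : ((tp 4 : O) : HQ E) + 1 ∈ (OH : Subring (HQ E)) := by
    refine add_mem ?_ (one_mem _)
    intro q hq
    rw [tp_coeff, if_neg]
    rintro rfl
    norm_num at hq
  have hw0 : (w : HQ E) ≠ 0 := by
    intro h
    rw [h, mul_zero] at hwH
    have := congrArg (fun z : HQ E => z.coeff 0) hwH
    simp only [HahnSeries.coeff_add, HahnSeries.coeff_zero, tp_coeff, HahnSeries.coeff_one] at this
    norm_num at this
  have hwO : (w : HQ E) ∈ (OH : Subring (HQ E)) := by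
    rcases mem_or_inv_mem (w : HQ E) with h | h
    · exact h
    · have h2 : (w : HQ E) = (w : HQ E) * (w : HQ E) * (w : HQ E)⁻¹ := by
        rw [mul_assoc, mul_inv_cancel₀ hw0, mul_one]
      rw [h2, hwH]
      exact mul_mem hr h
  have hc : ((w : HQ E).coeff 0) ^ 2 = 1 := by
    rw [pow_two, ← coeff_zero_mul hwO hwO, hwH]
    simp only [HahnSeries.coeff_add, tp_coeff, HahnSeries.coeff_one]
    norm_num
  have hσ : (act σ w) ^ 2 = w ^ 2 := by
    rw [← map_pow, hw, map_add, map_one, tU_pow, act_tp]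
  rcases sq_eq_sq_iff_eq_or_eq_neg.1 hσ with h | h
  · exact h
  · exfalso
    have h1 : σ ((w : HQ E).coeff 0) = -((w : HQ E).coeff 0) := by
      rw [← act_coeff, h]; rfl
    have hc' : (w : HQ E).coeff 0 * (w : HQ E).coeff 0 = 1 := by rw [← pow_two]; exact hc
    rcases mul_self_eq_one_iff.1 hc' with h2 | h2
    · rw [h2, map_one] at h1
      have : (2 : E) = 0 := by linear_combination h1
      exact two_ne_zero this
    · rw [h2, map_neg, map_one] at h1
      have : (2 : E) = 0 := by linear_combination -h1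
      exact two_ne_zero this

/-! ### Injectivity -/

noncomputable instance instAlg : Algebra ℚ O := (cst.comp (algebraMap ℚ E)).toAlgebra

theorem algMap_eq (r : ℚ) : algebraMap ℚ O r = cst (algebraMap ℚ E r) := rfl

theorem lau_coeff (a : LaurentPolynomial ℚ) (n : ℤ) :
    ((lau tU a : O) : HQ E).coeff (n : ℚ) = algebraMap ℚ E (a.coeff n) := by
  induction a using LaurentPolynomial.induction_on' with
  | add p q hp hq =>
    rw [map_add]
    change ((lau tU p : O) : HQ E).coeff (n : ℚ) + ((lau tU q : O) : HQ E).coeff (n : ℚ) = _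
    rw [hp, hq, ← map_add]
    rfl
  | C_mul_T m r =>
    have h1 : (LaurentPolynomial.C r * LaurentPolynomial.T m : LaurentPolynomial ℚ) =
        algebraMap ℚ (LaurentPolynomial ℚ) r * LaurentPolynomial.T m := rfl
    have h2 : (LaurentPolynomial.C r * LaurentPolynomial.T m : LaurentPolynomial ℚ).coeff n =
        if m = n then r else 0 := by
      rw [← LaurentPolynomial.single_eq_C_mul_T]
      exact Finsupp.single_apply
    rw [h2, h1, map_mul, AlgHom.commutes, lau_T, tU_zpow, algMap_eq]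
    have h3 : ((cst (algebraMap ℚ E r) * tp m : O) : HQ E) =
        HahnSeries.single (m : ℚ) (algebraMap ℚ E r) := by
      have e1 : ((cst (algebraMap ℚ E r) : O) : HQ E) = HahnSeries.single 0 (algebraMap ℚ E r) := by
        ext q
        rw [cst_coeff, HahnSeries.coeff_single]
        split_ifs <;> rfl
      have e2 : ((tp m : O) : HQ E) = HahnSeries.single (m : ℚ) 1 := by
        ext q
        rw [tp_coeff, HahnSeries.coeff_single]
        split_ifs <;> rfl
      change ((cst (algebraMap ℚ E r) : O) : HQ E) * ((tp m : O) : HQ E) = _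
      rw [e1, e2, HahnSeries.single_mul_single, zero_add, mul_one]
    rw [h3, HahnSeries.coeff_single]
    by_cases h : m = n
    · subst h; simp
    · rw [if_neg, if_neg h, map_zero]
      intro h'
      exact h (by exact_mod_cast h'.symm)

theorem lau_inj {a : LaurentPolynomial ℚ} (h : (lau tU a : O) = 0) : a = 0 := by
  refine LaurentPolynomial.ext fun n => ?_
  have h1 := lau_coeff a n
  rw [h] at h1
  have h2 : algebraMap ℚ E (a.coeff n) = 0 := h1.symm
  exact (algebraMap ℚ E).injective (by rw [h2]; simp)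

open Polynomial in
theorem no_sq_pol {A B : ℚ[X]} (h : A ^ 2 = B ^ 2 * (X ^ 4 + 1)) : B = 0 := by
  by_contra hB
  have hq : (X ^ 4 + 1 : ℚ[X]) ≠ 0 := by
    intro h0
    have := congrArg (Polynomial.eval 0) h0
    simp at this
  have hA : A ≠ 0 := by
    rintro rfl
    have : B ^ 2 * (X ^ 4 + 1) ≠ 0 := mul_ne_zero (pow_ne_zero 2 hB) hq
    exact this (by rw [← h]; simp)
  obtain ⟨A1, hA1, hA2⟩ := Polynomial.exists_eq_pow_rootMultiplicity_mul_and_not_dvd A hA 1
  obtain ⟨B1, hB1, hB2⟩ := Polynomial.exists_eq_pow_rootMultiplicity_mul_and_not_dvd B hB 1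
  have hm0 : (X ^ 4 + 1 : ℚ[X]).rootMultiplicity 1 = 0 := by
    apply rootMultiplicity_eq_zero
    simp only [IsRoot, eval_add, eval_pow, eval_X, eval_one]
    norm_num
  have h1 : (A ^ 2).rootMultiplicity 1 = 2 * A.rootMultiplicity 1 := by
    rw [pow_two, rootMultiplicity_mul (mul_ne_zero hA hA)]
    ring
  have h2 : (B ^ 2 * (X ^ 4 + 1)).rootMultiplicity 1 = 2 * B.rootMultiplicity 1 := by
    rw [rootMultiplicity_mul (mul_ne_zero (pow_ne_zero 2 hB) hq), hm0, pow_two,
      rootMultiplicity_mul (mul_ne_zero hB hB)]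
    ring
  have hk : A.rootMultiplicity 1 = B.rootMultiplicity 1 := by
    rw [h, h2] at h1
    omega
  rw [hk] at hA1
  set k := B.rootMultiplicity 1 with hkdef
  have h3 : A1 ^ 2 = B1 ^ 2 * (X ^ 4 + 1) := by
    have hX : ((X - C (1 : ℚ)) ^ k) ^ 2 ≠ 0 := pow_ne_zero _ (pow_ne_zero _ (X_sub_C_ne_zero 1))
    refine mul_left_cancel₀ hX ?_
    calc ((X - C (1 : ℚ)) ^ k) ^ 2 * A1 ^ 2 = A ^ 2 := by rw [hA1]; ring
      _ = B ^ 2 * (X ^ 4 + 1) := h
      _ = ((X - C (1 : ℚ)) ^ k) ^ 2 * (B1 ^ 2 * (X ^ 4 + 1)) := by rw [hB1]; ring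
  have hb : eval 1 B1 ≠ 0 := fun h0 => hB2 (dvd_iff_isRoot.2 h0)
  have h4 : (eval 1 A1) ^ 2 = (eval 1 B1) ^ 2 * 2 := by
    have := congrArg (Polynomial.eval 1) h3
    simp only [eval_pow, eval_mul, eval_add, eval_X, eval_one] at this
    rw [this]; norm_num
  have h5 : (eval 1 A1 / eval 1 B1) ^ 2 = 2 := by
    rw [div_pow, h4, mul_div_assoc, mul_comm, div_mul_cancel₀ _ (pow_ne_zero 2 hb)]
  have h6 : √2 = |((eval 1 A1 / eval 1 B1 : ℚ) : ℝ)| := by
    rw [← Real.sqrt_sq_eq_abs]
    congr 1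
    exact_mod_cast h5.symm
  have h7 := irrational_sqrt_two
  rw [h6] at h7
  exact h7 ⟨|eval 1 A1 / eval 1 B1|, by push_cast; rfl⟩

theorem no_sq_lau {a b : LaurentPolynomial ℚ} (h : a ^ 2 = b ^ 2 * (LaurentPolynomial.T 4 + 1)) :
    b = 0 := by
  obtain ⟨n, A, hA⟩ := LaurentPolynomial.exists_T_pow a
  obtain ⟨m, B, hB⟩ := LaurentPolynomial.exists_T_pow b
  have key : (A * Polynomial.X ^ m) ^ 2 = (B * Polynomial.X ^ n) ^ 2 * (Polynomial.X ^ 4 + 1) := by
    apply Polynomial.toLaurent_injective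
    simp only [map_mul, map_pow, map_add, map_one, Polynomial.toLaurent_X, hA, hB,
      LaurentPolynomial.T_pow]
    have e1 : (LaurentPolynomial.T ((m : ℤ) * 1) : LaurentPolynomial ℚ) = LaurentPolynomial.T m := by
      rw [mul_one]
    have e2 : (LaurentPolynomial.T ((n : ℤ) * 1) : LaurentPolynomial ℚ) = LaurentPolynomial.T n := by
      rw [mul_one]
    have e3 : (LaurentPolynomial.T (((4 : ℕ) : ℤ) * 1) : LaurentPolynomial ℚ) =
        LaurentPolynomial.T 4 := rfl
    rw [e1, e2, e3]
    linear_combination (LaurentPolynomial.T (n : ℤ) * LaurentPolynomial.T (m : ℤ)) ^ 2 * h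
  have h1 := no_sq_pol key
  have h2 : B = 0 := (mul_eq_zero.1 h1).resolve_right (pow_ne_zero _ Polynomial.X_ne_zero)
  rw [h2, map_zero] at hB
  have h3 : b = b * LaurentPolynomial.T (m : ℤ) * LaurentPolynomial.T (-(m : ℤ)) := by
    rw [mul_assoc, ← LaurentPolynomial.T_add, add_neg_cancel, LaurentPolynomial.T_zero, mul_one]
  rw [h3, ← hB, zero_mul]

open Polynomial in
theorem repr (r : CoordRing) : ∃ a b : LaurentPolynomial ℚ,
    r = AdjoinRoot.of _ a + AdjoinRoot.of _ b * wX := by
  obtain ⟨g, rfl⟩ := AdjoinRoot.mk_surjective r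
  set f : Polynomial (LaurentPolynomial ℚ) :=
    (Polynomial.X ^ 2 - Polynomial.C (LaurentPolynomial.T 4 + 1)) with hf
  have hm : f.Monic := by
    rw [hf]
    exact Polynomial.monic_X_pow_sub_C _ two_ne_zero
  have hd : f.natDegree = 2 := by
    rw [hf]
    exact Polynomial.natDegree_X_pow_sub_C
  have h1 : (g %ₘ f).natDegree ≤ 1 := by
    have := Polynomial.natDegree_modByMonic_lt g hm (by
      intro h0
      rw [h0] at hd
      simp at hd)
    omega
  have h2 : AdjoinRoot.mk f g = AdjoinRoot.mk f (g %ₘ f) := by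
    rw [AdjoinRoot.mk_eq_mk]
    exact ⟨g /ₘ f, by rw [Polynomial.modByMonic_eq_sub_mul_div g f]; ring⟩
  refine ⟨(g %ₘ f).coeff 0, (g %ₘ f).coeff 1, ?_⟩
  rw [h2]
  conv_lhs => rw [Polynomial.eq_X_add_C_of_natDegree_le_one h1]
  rw [map_add, map_mul, AdjoinRoot.mk_C, AdjoinRoot.mk_C, AdjoinRoot.mk_X, add_comm]
  rfl

theorem mkH_of (w : O) (hw : w ^ 2 = (tU : O) ^ 4 + 1) (a : LaurentPolynomial ℚ) :
    mkH tU w hw (AdjoinRoot.of _ a) = lau tU a := by
  unfold mkH
  rw [AdjoinRoot.liftAlgHom_of]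

theorem mkH_inj (w : O) (hw : w ^ 2 = (tU : O) ^ 4 + 1) : Function.Injective (mkH tU w hw) := by
  rw [injective_iff_map_eq_zero]
  intro r hr
  obtain ⟨a, b, rfl⟩ := repr r
  rw [map_add, map_mul, mkH_of, mkH_of, mkH_w] at hr
  have h4 : lau tU (LaurentPolynomial.T 4 + 1) = (tU : O) ^ 4 + 1 := by
    rw [map_add, map_one, lau_T, tU_zpow, tU_pow]
    rfl
  have h1 : lau tU (a ^ 2 - b ^ 2 * (LaurentPolynomial.T 4 + 1)) = (0 : O) := by
    rw [map_sub, map_mul, map_pow, map_pow, h4, ← hw]
    linear_combination (lau tU a - lau tU b * w) * hr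
  have h2 := sub_eq_zero.1 (lau_inj h1)
  have h3 := no_sq_lau h2
  rw [h3, map_zero, zero_mul, add_zero] at hr
  rw [h3, lau_inj hr, map_zero, zero_mul, add_zero]

theorem isOpen_fix (w : O) (hw : w ^ 2 = (tU : O) ^ 4 + 1)
    (hfix : ∀ σ r, act σ (mkH tU w hw r) = mkH tU w hw r) (α : O)
    (hα : ∃ q : Polynomial CoordRing, q ≠ 0 ∧ q.eval₂ (mkH tU w hw : CoordRing →+* O) α = 0) :
    IsOpen {σ : GalQ | act σ α = α} := by
  obtain ⟨q, hq, hqα⟩ := hα
  let A : MulAction GalQ O := MulAction.compHom O act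
  set H : Subgroup GalQ := MulAction.stabilizer GalQ α with hH
  have hsm : ∀ (σ : GalQ) (x : O), σ • x = act σ x := fun σ x => rfl
  have hHeq : (H : Set GalQ) = {σ : GalQ | act σ α = α} := by
    ext σ
    exact MulAction.mem_stabilizer_iff
  rw [← hHeq]
  -- closed
  have hcl : IsClosed (H : Set GalQ) := by
    have : (H : Set GalQ) = ⋂ c : ℚ, {σ : GalQ | σ ((α : HQ E).coeff c) = (α : HQ E).coeff c} := by
      rw [hHeq]
      ext σ
      simp only [Set.mem_iInter, Set.mem_ofPred_eq]
      constructor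
      · intro h c
        rw [← act_coeff, h]
      · intro h
        exact ext_O fun c => by rw [act_coeff, h c]
    rw [this]
    refine isClosed_iInter fun c => ?_
    have : Algebra.IsAlgebraic ℚ (AlgebraicClosure ℚ) := AlgebraicClosure.isAlgebraic ℚ
    have : Algebra.IsIntegral ℚ (AlgebraicClosure ℚ) := inferInstance
    exact Subgroup.isClosed_of_isOpen (MulAction.stabilizer GalQ ((α : HQ E).coeff c))
      (stabilizer_isOpen_of_isIntegral _)
  -- finite index
  have hfin : (MulAction.orbit GalQ α).Finite := by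
    have hq' : q.map (mkH tU w hw : CoordRing →+* O) ≠ 0 := fun h0 =>
      hq (Polynomial.map_injective (mkH tU w hw : CoordRing →+* O) (mkH_inj w hw)
        (by rw [h0, Polynomial.map_zero]))
    refine ((q.map (mkH tU w hw : CoordRing →+* O)).rootSet_finite O).subset ?_
    rintro _ ⟨σ, rfl⟩
    rw [Polynomial.mem_rootSet]
    refine ⟨hq', ?_⟩
    rw [Polynomial.aeval_def, Algebra.algebraMap_self, Polynomial.eval₂_id, Polynomial.eval_map]
    change q.eval₂ _ (act σ α) = 0
    have h1 := Polynomial.hom_eval₂ q (mkH tU w hw : CoordRing →+* O) (act σ : O →+* O) α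
    rw [hqα, map_zero] at h1
    rw [h1]
    change _ = Polynomial.eval₂ _ (act σ α) q
    congr 1
    exact RingHom.ext fun r => (hfix σ r).symm
  have : H.FiniteIndex := by
    have : Finite (GalQ ⧸ H) := by
      have := hfin.to_subtype
      exact Finite.of_equiv _ (MulAction.orbitEquivQuotientStabilizer GalQ α)
    exact Subgroup.finiteIndex_of_finite_quotient
  exact Subgroup.isOpen_of_isClosed_of_finiteIndex H hcl

theorem t_PUI : S_PUI := by
  obtain ⟨w, hw, hσw⟩ := exists_w
  have hfix : ∀ σ r, act σ (mkH tU w hw r) = mkH tU w hw r := by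
    intro σ r
    have h1 : ∀ c : ℚ, act σ (algebraMap ℚ O c) = algebraMap ℚ O c := by
      intro c
      rw [algMap_eq, act_cst]
      congr 1
      exact σ.commutes c
    let f : CoordRing →ₐ[ℚ] O :=
      { ((act σ : O →+* O).comp (mkH tU w hw : CoordRing →+* O)) with
        commutes' := fun c => by
          change act σ (mkH tU w hw (algebraMap ℚ CoordRing c)) = _
          rw [AlgHom.commutes]
          exact h1 c }
    have hf : f = mkH tU w hw := by
      refine hom_ext _ _ ?_ ?_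
      · change act σ (mkH tU w hw uX) = _
        rw [mkH_u]
        exact act_tp σ 1
      · change act σ (mkH tU w hw wX) = _
        rw [mkH_w]
        exact hσw σ
    exact DFunLike.congr_fun hf r
  exact ⟨O, inferInstance, inferInstance, (mkH tU w hw : CoordRing →+* O), cst, act, mkH_inj w hw,
    hfix, act_cst, isOpen_fix w hw hfix⟩

end Pool.Agent.Q47.SB
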