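import Pool.Agent.Q33.SB.Stm

/-!
Project SB, job SCH: from a section for the field `Ω` to the splitting of all the `p_U`.
-/

set_option autoImplicit false

namespace Pool.Agent.Q47.SB

open Pool.Agent.Q33.SB CategoryTheory AlgebraicGeometry

section

variable {R Ω : Type} [CommRing R] [Field Ω] {j : R →+* Ω}

theorem range_sub (hj : Function.Injective j) (U : (Spec (.of R)).Opens) (hU : U ≠ ⊥) :
    Set.range (Spec.map (CommRingCat.ofHom j)) ⊆ Set.range U.ι := by
  rintro _ ⟨p, rfl⟩
  rw [Scheme.Opens.range_ι]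
  obtain ⟨q, hq⟩ : (U : Set (Spec (.of R))).Nonempty := by
    rw [Set.nonempty_iff_ne_empty]
    intro h
    exact hU (TopologicalSpace.Opens.ext h)
  have hs : (Spec.map (CommRingCat.ofHom j) p : PrimeSpectrum R) ⤳ (q : PrimeSpectrum R) := by
    refine (PrimeSpectrum.le_iff_specializes (R := R) _ _).1 ?_
    change Ideal.comap j (PrimeSpectrum.asIdeal p) ≤ PrimeSpectrum.asIdeal q
    intro r hr
    rw [Ideal.mem_comap] at hr
    have h0 : j r = 0 := by
      by_contra h0
      exact (PrimeSpectrum.isPrime p).ne_top (Ideal.eq_top_of_isUnit_mem _ hr (IsUnit.mk0 _ h0))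
    have : r = 0 := hj (by rw [h0, map_zero])
    rw [this]
    exact Submodule.zero_mem _
  exact hs.mem_open U.isOpen hq

variable {U T : Scheme.{0}} {x : T ⟶ U}

/-- The action of an endomorphism of `T` over `U`. -/
def nat (a : Over.mk x ⟶ Over.mk x) : fibreFunctor x ⟶ fibreFunctor x :=
  Functor.whiskerLeft (FinEt U).ι (coyoneda.map a.op)

theorem nat_app (a : Over.mk x ⟶ Over.mk x) (Y : (FinEt U).FullSubcategory)
    (y : (fibreFunctor x).obj Y) : (nat a).app Y y = a ≫ y := rfl

theorem nat_id : nat (𝟙 (Over.mk x)) = 𝟙 _ := by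
  ext Y y
  change 𝟙 (Over.mk x) ≫ y = y
  exact Category.id_comp y

theorem nat_comp (a b : Over.mk x ⟶ Over.mk x) : nat (a ≫ b) = nat b ≫ nat a := by
  ext Y y
  change (a ≫ b) ≫ y = a ≫ b ≫ y
  exact Category.assoc _ _ _

/-- The homomorphism to the fundamental group. -/
def toPi {G : Type} [Group G] (a : G → (Over.mk x ⟶ Over.mk x)) (h1 : a 1 = 𝟙 _)
    (hm : ∀ g h, a (g * h) = a g ≫ a h) : G →* Pi1 x where
  toFun g :=
    { hom := nat (a g)
      inv := nat (a g⁻¹)
      hom_inv_id := by rw [← nat_comp, ← hm, inv_mul_cancel, h1, nat_id]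
      inv_hom_id := by rw [← nat_comp, ← hm, mul_inv_cancel, h1, nat_id] }
  map_one' := by
    refine Iso.ext ?_
    change nat (a 1) = 𝟙 _
    rw [h1, nat_id]
  map_mul' g h := by
    refine Iso.ext ?_
    change nat (a (g * h)) = nat (a h) ≫ nat (a g)
    rw [hm, nat_comp]

theorem toPi_act {G : Type} [Group G] (a : G → (Over.mk x ⟶ Over.mk x)) (h1 : a 1 = 𝟙 _)
    (hm : ∀ g h, a (g * h) = a g ≫ a h) (g : G) (Y : (FinEt U).FullSubcategory)
    (y : (fibreFunctor x).obj Y) : (toPi a h1 hm g).act Y y = a g ≫ y := rfl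

end

theorem t_SCH : S_SCH := by
  intro hFIX R _ _ _ ⟨Ω, _, _, j, ι, s, hj, hfix, hι, hop⟩ U hU
  let x : Spec (.of Ω) ⟶ U.toScheme :=
    IsOpenImmersion.lift U.ι (Spec.map (CommRingCat.ofHom j)) (range_sub hj U hU)
  have hx : x ≫ U.ι = Spec.map (CommRingCat.ofHom j) := IsOpenImmersion.lift_fac _ _ _
  let b : GalQ → (Spec (.of Ω) ⟶ Spec (.of Ω)) := fun σ =>
    Spec.map (CommRingCat.ofHom (s σ : Ω →+* Ω))
  have hb : ∀ σ, b σ ≫ x = x := by
    intro σ
    rw [← cancel_mono U.ι, Category.assoc, hx, ← Spec.map_comp, ← CommRingCat.ofHom_comp]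
    congr 2
    ext r
    exact hfix σ r
  have hb1 : b 1 = 𝟙 _ := by
    change Spec.map (CommRingCat.ofHom (s 1 : Ω →+* Ω)) = _
    rw [map_one]
    exact Spec.map_id _
  have hbm : ∀ σ τ, b (σ * τ) = b σ ≫ b τ := by
    intro σ τ
    change Spec.map (CommRingCat.ofHom (s (σ * τ) : Ω →+* Ω)) = Spec.map _ ≫ Spec.map _
    rw [← Spec.map_comp, ← CommRingCat.ofHom_comp, map_mul]
    rfl
  let a : GalQ → (Over.mk x ⟶ Over.mk x) := fun σ => Over.homMk (b σ) (hb σ)
  have ha1 : a 1 = 𝟙 _ := by
    ext1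
    exact hb1
  have ham : ∀ g h, a (g * h) = a g ≫ a h := by
    intro g h
    ext1
    exact hbm g h
  refine ⟨Ω, inferInstance, inferInstance, x, ι, toPi a ha1 ham, ?_, ?_⟩
  · intro Y y
    obtain ⟨S, hS1, hS2⟩ := hFIX R Ω j hj U Y.obj.left Y.obj.hom Y.property.1 (CommaMorphism.left y)
      (by
        have : CommaMorphism.left y ≫ Y.obj.hom = x := Over.w y
        rw [← Category.assoc, this, hx])
    let H : Subgroup GalQ :=
      { carrier := {σ : GalQ | (toPi a ha1 ham σ).act Y y = y}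
        one_mem' := by
          change a 1 ≫ y = y
          rw [ha1]
          exact Category.id_comp y
        mul_mem' := by
          intro σ τ h1 h2
          have h1' : a σ ≫ y = y := h1
          have h2' : a τ ≫ y = y := h2
          change a (σ * τ) ≫ y = y
          rw [ham]
          erw [Category.assoc, h2', h1']
        inv_mem' := by
          intro σ h1
          have h1' : a σ ≫ y = y := h1
          change a σ⁻¹ ≫ y = y
          have h2 : a σ⁻¹ ≫ a σ ≫ y = y := by
            erw [← Category.assoc, ← ham, inv_mul_cancel, ha1]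
            exact Category.id_comp y
          rw [h1'] at h2
          exact h2 }
    have hop2 : IsOpen (⋂ α ∈ S, {σ : GalQ | s σ α = α}) :=
      isOpen_biInter_finset fun α hα => hop α (hS1 α hα)
    have hsub : (⋂ α ∈ S, {σ : GalQ | s σ α = α}) ⊆ (H : Set GalQ) := by
      intro σ hσ
      have h1 : ∀ α ∈ S, s σ α = α := fun α hα => Set.mem_iInter₂.1 hσ α hα
      have h2 := hS2 (s σ) (hfix σ) h1
      change a σ ≫ y = y
      refine Over.OverMorphism.ext ?_
      exact h2
    have h1 : (1 : GalQ) ∈ (⋂ α ∈ S, {σ : GalQ | s σ α = α}) := by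
      refine Set.mem_iInter₂.2 fun α _ => ?_
      change s 1 α = α
      rw [map_one]; rfl
    exact Subgroup.isOpen_of_mem_nhds H (Filter.mem_of_superset (hop2.mem_nhds h1) hsub)
  · intro σ Y Z g hg y z hyz
    change (b σ ≫ CommaMorphism.left y) ≫ g = _
    rw [Category.assoc, hyz, ← Category.assoc, ← Category.assoc]
    congr 1
    change Spec.map _ ≫ Spec.map _ = _
    rw [← Spec.map_comp, ← Spec.map_comp, ← CommRingCat.ofHom_comp, ← CommRingCat.ofHom_comp]
    congr 2
    ext r
    exact hι σ r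

end Pool.Agent.Q47.SB
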