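import Pool.Agent.Q33.SB.Stm

/-!
Project SB, job SMO: the curve is smooth.
-/

set_option autoImplicit false

namespace Pool.Agent.Q47.SB

open Pool.Agent.Q33.SB

/-- The homomorphism of the Laurent polynomials given by a unit. -/
noncomputable def lau {B : Type} [CommRing B] [Algebra ℚ B] (U : Bˣ) :
    LaurentPolynomial ℚ →ₐ[ℚ] B :=
  AddMonoidAlgebra.lift ℚ B ℤ ((Units.coeHom B).comp (zpowersHom Bˣ U))

theorem lau_T {B : Type} [CommRing B] [Algebra ℚ B] (U : Bˣ) (n : ℤ) :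
    lau U (LaurentPolynomial.T n) = ((U ^ n : Bˣ) : B) := by
  unfold lau LaurentPolynomial.T
  rw [AddMonoidAlgebra.lift_single]
  simp

/-- The homomorphism of the coordinate ring. -/
noncomputable def mkH {B : Type} [CommRing B] [Algebra ℚ B] (U : Bˣ) (w : B)
    (h : w ^ 2 = (U : B) ^ 4 + 1) : CoordRing →ₐ[ℚ] B :=
  AdjoinRoot.liftAlgHom _ (lau U) w (by
    simp only [Polynomial.eval₂_sub, Polynomial.eval₂_X_pow, Polynomial.eval₂_C]
    change w ^ 2 - lau U (LaurentPolynomial.T 4 + 1) = 0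
    rw [map_add, map_one, lau_T, h]
    have : ((U ^ (4 : ℤ) : Bˣ) : B) = (U : B) ^ 4 := by
      rw [← Units.val_pow_eq_pow_val]; rfl
    rw [this, sub_self])

theorem mkH_u {B : Type} [CommRing B] [Algebra ℚ B] (U : Bˣ) (w : B)
    (h : w ^ 2 = (U : B) ^ 4 + 1) : mkH U w h uX = U := by
  unfold mkH uX
  rw [AdjoinRoot.liftAlgHom_of, lau_T, zpow_one]

theorem mkH_w {B : Type} [CommRing B] [Algebra ℚ B] (U : Bˣ) (w : B)
    (h : w ^ 2 = (U : B) ^ 4 + 1) : mkH U w h wX = w := by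
  unfold mkH wX
  rw [AdjoinRoot.liftAlgHom_root]

/-- The unit `u`. -/
noncomputable def uU : CoordRingˣ where
  val := uX
  inv := AdjoinRoot.of _ (LaurentPolynomial.T (-1))
  val_inv := by
    unfold uX
    rw [← map_mul, ← LaurentPolynomial.T_add]
    simp
  inv_val := by
    unfold uX
    rw [← map_mul, ← LaurentPolynomial.T_add]
    simp

theorem T_eq (n : ℤ) :
    AdjoinRoot.of (Polynomial.X ^ 2 - Polynomial.C (LaurentPolynomial.T 4 + 1) :
      Polynomial (LaurentPolynomial ℚ)) (LaurentPolynomial.T n) =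
      ((uU ^ n : CoordRingˣ) : CoordRing) := by
  induction n using Int.induction_on with
  | zero => simp
  | succ n ih =>
    rw [LaurentPolynomial.T_add, map_mul, ih, zpow_add_one, Units.val_mul]
    rfl
  | pred n ih =>
    have h1 : (LaurentPolynomial.T (-(n : ℤ) - 1) : LaurentPolynomial ℚ) =
        LaurentPolynomial.T (-(n : ℤ)) * LaurentPolynomial.T (-1) := by
      rw [← LaurentPolynomial.T_add]; rfl
    rw [h1, map_mul, ih, zpow_sub_one, Units.val_mul]
    rfl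

theorem w_sq : (wX : CoordRing) ^ 2 = uX ^ 4 + 1 := by
  have h := AdjoinRoot.eval₂_root (Polynomial.X ^ 2 - Polynomial.C (LaurentPolynomial.T 4 + 1) :
    Polynomial (LaurentPolynomial ℚ))
  rw [Polynomial.eval₂_sub, Polynomial.eval₂_X_pow, Polynomial.eval₂_C, map_add
    (AdjoinRoot.of _), map_one (AdjoinRoot.of _), T_eq] at h
  have h4 : ((uU ^ (4 : ℤ) : CoordRingˣ) : CoordRing) = uX ^ 4 := by
    have : (uX : CoordRing) = uU := rfl
    rw [this, ← Units.val_pow_eq_pow_val]; rfl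
  rw [h4] at h
  exact sub_eq_zero.1 h

theorem hom_ext {C : Type} [CommRing C] [Algebra ℚ C] (f g : CoordRing →ₐ[ℚ] C)
    (hu : f uX = g uX) (hw : f wX = g wX) : f = g := by
  have key : Units.map (f : CoordRing →* C) uU = Units.map (g : CoordRing →* C) uU := Units.ext hu
  have h1 : ∀ n : ℤ, f ((uU ^ n : CoordRingˣ) : CoordRing) = g ((uU ^ n : CoordRingˣ) : CoordRing) := by
    intro n
    have := congrArg (fun z : Cˣ => ((z ^ n : Cˣ) : C)) key
    simp only [← map_zpow] at this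
    exact this
  refine AdjoinRoot.algHom_ext' ?_ hw
  refine AddMonoidAlgebra.algHom_ext (fun n => ?_) (by ext)
  have h2 := h1 n
  rw [← T_eq n] at h2
  exact h2

theorem finPres : Algebra.FinitePresentation ℚ CoordRing := by
  have h1 : Algebra.FiniteType ℚ (LaurentPolynomial ℚ) := inferInstance
  have h2 : Algebra.FiniteType ℚ CoordRing := AdjoinRoot.finiteType _
  exact Algebra.FinitePresentation.of_finiteType.1 h2

theorem t_SMO : S_SMO := by
  refine ⟨?_, finPres⟩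
  rw [Algebra.FormallySmooth.iff_comp_surjective]
  intro B _ _ I hI f
  have hsq : ∀ x ∈ I, ∀ y ∈ I, x * y = 0 := fun x hx y hy => by
    have : x * y ∈ I ^ 2 := by rw [pow_two]; exact Ideal.mul_mem_mul hx hy
    rwa [hI, Ideal.mem_bot] at this
  have hnil : IsNilpotent I := ⟨2, hI⟩
  obtain ⟨u1, hu1⟩ := Ideal.Quotient.mk_surjective (f uX)
  obtain ⟨w1, hw1⟩ := Ideal.Quotient.mk_surjective (f wX)
  have hun : IsUnit (f uX) := (Units.map (f : CoordRing →* (B ⧸ I)) uU).isUnit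
  have hun1 : IsUnit u1 := by
    rw [← IsNilpotent.isUnit_quotient_mk_iff hnil, hu1]
    exact hun
  obtain ⟨U1, rfl⟩ := hun1
  have he : (U1 : B) ^ 4 + 1 - w1 ^ 2 ∈ I := by
    rw [← Ideal.Quotient.eq_zero_iff_mem]
    simp only [map_sub, map_add, map_pow, map_one, hu1, hw1]
    rw [← map_pow, ← map_pow, w_sq, map_add f, map_one f, sub_self]
  set e := (U1 : B) ^ 4 + 1 - w1 ^ 2 with hedef
  set c : B := algebraMap ℚ B (1 / 4) * ((U1⁻¹ : Bˣ) : B) ^ 3 with hc
  have hc4 : 4 * (U1 : B) ^ 3 * c = 1 := by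
    have h1 : (4 : B) * algebraMap ℚ B (1 / 4) = 1 := by
      have : (4 : B) = algebraMap ℚ B 4 := (map_ofNat (algebraMap ℚ B) 4).symm
      rw [this, ← map_mul]; norm_num
    have h2 : (U1 : B) ^ 3 * ((U1⁻¹ : Bˣ) : B) ^ 3 = 1 := by
      rw [← mul_pow, Units.mul_inv, one_pow]
    calc 4 * (U1 : B) ^ 3 * c = (4 * algebraMap ℚ B (1 / 4)) *
          ((U1 : B) ^ 3 * ((U1⁻¹ : Bˣ) : B) ^ 3) := by rw [hc]; ring
      _ = 1 := by rw [h1, h2, one_mul]
  have hd : c * e ∈ I := I.mul_mem_left _ he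
  have hdd : (c * e) * (c * e) = 0 := hsq _ hd _ hd
  have hU2 : IsUnit ((U1 : B) - c * e) := by
    rw [← IsNilpotent.isUnit_quotient_mk_iff hnil, map_sub, Ideal.Quotient.eq_zero_iff_mem.2 hd, sub_zero,
      hu1]
    exact hun
  obtain ⟨U2, hU2⟩ := hU2
  have hrel : w1 ^ 2 = (U2 : B) ^ 4 + 1 := by
    rw [hU2]
    have : ((U1 : B) - c * e) ^ 4 = (U1 : B) ^ 4 - (4 * (U1 : B) ^ 3 * c) * e := by
      linear_combination (6 * (U1 : B) ^ 2 - 4 * (U1 : B) * (c * e) + (c * e) * (c * e)) * hdd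
    rw [this, hc4, hedef]; ring
  refine ⟨mkH U2 w1 hrel, hom_ext _ _ ?_ ?_⟩
  · change Ideal.Quotient.mk I (mkH U2 w1 hrel uX) = f uX
    rw [mkH_u, hU2, map_sub, Ideal.Quotient.eq_zero_iff_mem.2 hd, sub_zero, hu1]
  · change Ideal.Quotient.mk I (mkH U2 w1 hrel wX) = f wX
    rw [mkH_w, hw1]

end Pool.Agent.Q47.SB
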